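import Pool.Agent.Helper37.KDB.Extra
import Pool.Agent.Helper37.KDB.St.D13
import Pool.Agent.Helper37.KDB.St.D14

/-! Project KDB, piece D15: closeness at the end of a block. -/

set_option autoImplicit false

namespace KDB.I.D15

open MeasureTheory KDB
open scoped ENNReal

variable (p : Par)

/-- The first listed step. -/
lemma filter_split (P : ℕ → Bool) (n : ℕ) : ∀ (a e : ℕ) (t : List ℕ),
    (List.range' a n).filter P = e :: t →
      a ≤ e ∧ e < a + n ∧ P e = true ∧ (∀ j ∈ Finset.Ico a e, P j = false) ∧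
        t = (List.range' (e + 1) (a + n - (e + 1))).filter P := by
  induction n with
  | zero =>
    intro a e t h
    simp at h
  | succ n ih =>
    intro a e t h
    rw [List.range'_succ, List.filter_cons] at h
    by_cases hPa : P a = true
    · rw [if_pos hPa] at h
      obtain ⟨rfl, rfl⟩ := List.cons.inj h
      refine ⟨le_rfl, by omega, hPa, ?_, ?_⟩
      · intro j hj
        simp at hj
      · rw [show a + (n + 1) - (a + 1) = n by omega]
    · rw [if_neg hPa] at h
      obtain ⟨h1, h2, h3, h4, h5⟩ := ih (a + 1) e t h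
      refine ⟨by omega, by omega, h3, ?_, ?_⟩
      · intro j hj
        rw [Finset.mem_Ico] at hj
        rcases Nat.eq_or_lt_of_le hj.1 with hja | hja
        · rw [← hja]
          simpa using hPa
        · exact h4 j (Finset.mem_Ico.mpr ⟨hja, hj.2⟩)
      · rw [h5, show a + 1 + n - (e + 1) = a + (n + 1) - (e + 1) by omega]

/-- No listed step. -/
lemma filter_nil (P : ℕ → Bool) (a n : ℕ) (h : (List.range' a n).filter P = []) (j : ℕ)
    (hj : j ∈ Finset.Ico a (a + n)) : P j = false := by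
  rw [List.filter_eq_nil_iff] at h
  rw [Finset.mem_Ico] at hj
  have := h j (by rw [List.mem_range'_1]; exact ⟨hj.1, hj.2⟩)
  simpa using this

lemma lsteps_cons (om : ℕ → Nz p.d) (m a g' e : ℕ) (t : List ℕ) (hag : a ≤ g')
    (h : p.lsteps om m a g' = e :: t) :
    a ≤ e ∧ e < g' ∧ m < p.lv (om e) ∧ (∀ j ∈ Finset.Ico a e, p.lv (om j) ≤ m) ∧
      t = p.lsteps om m (e + 1) g' := by
  obtain ⟨h1, h2, h3, h4, h5⟩ := filter_split _ _ _ _ _ h
  refine ⟨h1, by omega, by simpa using h3, ?_, ?_⟩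
  · intro j hj
    have := h4 j hj
    simpa using this
  · rw [h5, show a + (g' - a) - (e + 1) = g' - (e + 1) by omega]
    rfl

lemma lsteps_nil (om : ℕ → Nz p.d) (m a g' : ℕ) (hag : a ≤ g')
    (h : p.lsteps om m a g' = []) : ∀ j ∈ Finset.Ico a g', p.lv (om j) ≤ m := by
  intro j hj
  have := filter_nil _ _ _ h j (by rwa [show a + (g' - a) = g' by omega])
  simpa using this

/-- The induction along the two lists. -/
lemma block_ind (hp : p.Ok) (om om' : ℕ → Nz p.d) (hv : ∀ j, p.Valid j (om j))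
    (hv' : ∀ j, p.Valid j (om' j)) (m g g' : ℕ) (hm : m < p.n)
    (hg' : g' ≤ g + p.tau m) (nc : ℕ)
    (hr1 : Par.emd (64 * 2 ^ nc) (Par.fl (p.rho m) (p.run om g').2) =
      Par.emd (64 * 2 ^ nc) (Par.fl (p.rho m) (p.run om' g').2))
    (hr2 : Par.emd (64 * 2 ^ nc) (Par.fl (p.xi m) (p.run om g').1) =
      Par.emd (64 * 2 ^ nc) (Par.fl (p.xi m) (p.run om' g').1)) :
    ∀ (l l' : List ℕ) (a a' : ℕ), g ≤ a → a ≤ g' → g ≤ a' → a' ≤ g' →
      l = p.lsteps om m a g' → l' = p.lsteps om' m a' g' →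
      p.ents om m g a l = p.ents om' m g a' l' →
      nc = Par.ncl (p.nse om m (Par.lastSync a l) g' / p.rho m) →
      nc = Par.ncl (p.nse om' m (Par.lastSync a' l') g' / p.rho m) →
      ‖(p.run om a).2 - (p.run om' a').2‖ ≤ p.rho m →
      ‖p.Pos om g a - p.Pos om' g a'‖ ≤ p.xi m →
      ‖(p.run om g').2 - (p.run om' g').2‖ ≤ p.rho m ∧
        ‖(p.run om g').1 - (p.run om' g').1‖ ≤ p.xi m := by
  intro l
  induction l with
  | nil =>
    intro l' a a' hga hag hga' hag' hl hl' hents hnc hnc' h1 h2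
    cases l' with
    | nil =>
      exact end_close p hp om om' hv hv' m g a a' g' hm hga hag hga' hag' hg'
        (lsteps_nil p om m a g' hag hl.symm) (lsteps_nil p om' m a' g' hag' hl'.symm)
        nc hnc hnc' hr1 hr2 h1 h2
    | cons e' t' => simp [Par.ents] at hents
  | cons e t ih =>
    intro l' a a' hga hag hga' hag' hl hl' hents hnc hnc' h1 h2
    cases l' with
    | nil => simp [Par.ents] at hents
    | cons e' t' =>
      obtain ⟨a1, a2, a3, a4, a5⟩ := lsteps_cons p om m a g' e t hag hl.symm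
      obtain ⟨b1, b2, b3, b4, b5⟩ := lsteps_cons p om' m a' g' e' t' hag' hl'.symm
      rw [Par.ents, Par.ents] at hents
      obtain ⟨he, ht⟩ := List.cons.inj hents
      obtain ⟨c1, c2⟩ := entry_close p hp om om' hv hv' m g a e a' e' hm hga a1 (by omega)
        hga' b1 (by omega) a4 a3 b4 b3 he h1 h2
      exact ih t' (e + 1) (e' + 1) (by omega) (by omega) (by omega) (by omega) a5 b5 ht hnc hnc'
        c1 c2

/-- BLOCK -/
theorem blk_close (hp : p.Ok) (om om' : ℕ → Nz p.d) (hv : ∀ j, p.Valid j (om j))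
    (hv' : ∀ j, p.Valid j (om' j)) (m g g' : ℕ) (hm : m < p.n) (hgg : g ≤ g')
    (hg' : g' ≤ g + p.tau m) (hb : p.blk om m g g' = p.blk om' m g g')
    (h1 : ‖(p.run om g).2 - (p.run om' g).2‖ ≤ p.rho m)
    (h2 : ‖(p.run om g).1 - (p.run om' g).1‖ ≤ p.xi m) :
    ‖(p.run om g').2 - (p.run om' g').2‖ ≤ p.rho m ∧
      ‖(p.run om g').1 - (p.run om' g').1‖ ≤ p.xi m := by
  have e1 : p.ents om m g g (p.lsteps om m g g') = p.ents om' m g g (p.lsteps om' m g g') :=
    congrArg (fun x => x.1) hb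
  have e2 : Par.ncl (p.nse om m (Par.lastSync g (p.lsteps om m g g')) g' / p.rho m) =
      Par.ncl (p.nse om' m (Par.lastSync g (p.lsteps om' m g g')) g' / p.rho m) :=
    congrArg (fun x => x.2.1) hb
  have e3 := congrArg (fun x => x.2.2.1) hb
  have e4 := congrArg (fun x => x.2.2.2) hb
  simp only [Par.blk] at e3 e4
  rw [← e2] at e3 e4
  refine block_ind p hp om om' hv hv' m g g' hm hg' _ e3 e4 _ _ g g le_rfl hgg le_rfl hgg rfl rfl
    e1 rfl e2 h1 ?_
  have hP : ∀ w : ℕ → Nz p.d, p.Pos w g g = (p.run w g).1 := by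
    intro w
    simp [Par.Pos]
  rw [hP, hP]
  exact h2

end KDB.I.D15
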